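import Pool.Agent.P.MP_6327e0_co.U.Num

/-! A family of diameter `2 d` with a large diametral overflow. -/

namespace Pool.Agent.P.MP_6327e0_co.U

open Finset
open scoped symmDiff

/-- The price of a trace on the five special elements. -/
def gw (A : Finset (Fin 5)) : ℕ := if (A ∩ {2, 3, 4}).card % 2 = 0 then 2 else 3

lemma gw_dist : ∀ A B : Finset (Fin 5), (A ∆ B).card ≤ gw A + gw B := by decide +kernel

lemma gw_cnt : ∀ C : Finset (Fin 5),
    7 ≤ (∑ A : Finset (Fin 5), if gw A ≤ 2 ∧ 2 < (A ∆ C).card then 1 else 0) ∧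
    6 ≤ (∑ A : Finset (Fin 5), if gw A ≤ 3 ∧ 3 < (A ∆ C).card then 1 else 0) ∧
    1 ≤ (∑ A : Finset (Fin 5), if gw A ≤ 4 ∧ 4 < (A ∆ C).card then 1 else 0) := by decide +kernel

lemma card_sd {α β : Type*} [DecidableEq α] [DecidableEq β] (F G : Finset (α ⊕ β)) :
    (F ∆ G).card = (F.toLeft ∆ G.toLeft).card + (F.toRight ∆ G.toRight).card := by
  rw [← card_toLeft_add_card_toRight]
  simp only [Finset.symmDiff_def, toLeft_union, toRight_union, toLeft_sdiff, toRight_sdiff]

/-- The number of subsets of size `d - i` of an `m`-set. -/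
def nn (m d i : ℕ) : ℕ := ∑ B : Finset (Fin m), if B.card + i = d then 1 else 0

lemma nn_add (m e i : ℕ) : nn m (e + i) i = m.choose e := by
  rw [nn, ← card_filter]
  have : (univ.filter fun B : Finset (Fin m) => B.card + i = e + i) = powersetCard e univ := by
    ext B
    simp [mem_powersetCard]
  rw [this, card_powersetCard, card_univ, Fintype.card_fin]

lemma low_sum (m d : ℕ) : ∃ 𝓕 : Finset (Finset (Fin 5 ⊕ Fin m)),
    (∀ A ∈ 𝓕, ∀ B ∈ 𝓕, (A ∆ B).card ≤ 2 * d) ∧ ∀ C,
      7 * nn m d 2 + 6 * nn m d 3 + nn m d 4 ≤ (𝓕.filter fun F => d < (F ∆ C).card).card := by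
  refine ⟨univ.filter fun F => F.toRight.card + gw F.toLeft ≤ d, fun A hA B hB => ?_, fun C => ?_⟩
  · rw [mem_filter] at hA hB
    have h1 := gw_dist A.toLeft B.toLeft
    have h2 := (card_le_card (symmDiff_subset_union (s := A.toRight) (t := B.toRight))).trans
      (card_union_le _ _)
    rw [card_sd]
    omega
  have k1 : ∑ A : Finset (Fin 5), ((univ.filter fun B : Finset (Fin m) => B.card + gw A ≤ d).filter
      fun B => d < (A ∆ C.toLeft).card + (B ∆ C.toRight).card).card ≤
      ((univ.filter fun F : Finset (Fin 5 ⊕ Fin m) => F.toRight.card + gw F.toLeft ≤ d).filter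
        fun F => d < (F ∆ C).card).card := by
    rw [← card_sigma]
    refine card_le_card_of_injOn (fun x => x.1.disjSum x.2) (fun x hx => ?_) fun x _ y _ e => ?_
    · simp only [mem_coe, mem_sigma, mem_filter, mem_univ, true_and] at hx ⊢
      rw [card_sd, toLeft_disjSum, toRight_disjSum]
      exact hx
    · simp only [disjSum_inj] at e
      exact Sigma.ext e.1 (heq_of_eq e.2)
  refine le_trans ?_ k1
  have k2 : ∀ A : Finset (Fin 5),
      (if gw A ≤ 2 ∧ 2 < (A ∆ C.toLeft).card then 1 else 0) * nn m d 2 +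
      (if gw A ≤ 3 ∧ 3 < (A ∆ C.toLeft).card then 1 else 0) * nn m d 3 +
      (if gw A ≤ 4 ∧ 4 < (A ∆ C.toLeft).card then 1 else 0) * nn m d 4 ≤
      ((univ.filter fun B : Finset (Fin m) => B.card + gw A ≤ d).filter
        fun B => d < (A ∆ C.toLeft).card + (B ∆ C.toRight).card).card := fun A => by
    refine le_trans ?_ (down_centre (fun B hB x => ?_) d _ _)
    · rw [filter_filter, card_filter]
      simp only [nn, mul_sum, ← sum_add_distrib]
      refine sum_le_sum fun B _ => ?_
      split_ifs <;> omega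
    · rw [mem_filter] at hB ⊢
      have := card_erase_le (s := B) (a := x)
      exact ⟨mem_univ _, by omega⟩
  refine le_trans ?_ (sum_le_sum fun A _ => k2 A)
  simp only [sum_add_distrib, ← sum_mul]
  obtain ⟨h2, h3, h4⟩ := gw_cnt C.toLeft
  have := Nat.mul_le_mul_right (nn m d 4) h4
  exact Nat.add_le_add (Nat.add_le_add (Nat.mul_le_mul_right _ h2) (Nat.mul_le_mul_right _ h3))
    (by omega)

lemma low_num {m e s : ℕ} (hm : m = e + s) (h : s * (s + 1) < (e + 1) * (4 * (s + 1) + 3 * e)) :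
    (m + 3).choose (e + 1) < 7 * nn m (e + 2) 2 + 6 * nn m (e + 2) 3 + nn m (e + 2) 4 := by
  have h0 : 0 < m.choose e := Nat.choose_pos (by omega)
  have h1 := Nat.choose_succ_right_eq m e
  rw [show m - e = s by omega] at h1
  obtain ⟨h2, h3⟩ : nn m (e + 2) 3 * (s + 1) = m.choose e * e ∧ (m + 3).choose (e + 1) ≤
      m.choose (e + 1) + 3 * m.choose e + 3 * nn m (e + 2) 3 + nn m (e + 2) 4 := by
    rcases e with _ | e
    · simp [nn]
    have h4 := Nat.choose_succ_right_eq m e
    rw [show m - e = s + 1 by omega] at h4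
    rw [show e + 1 + 2 = e + 3 from rfl, nn_add]
    refine ⟨h4.symm, ?_⟩
    rcases e with _ | e
    · rw [show 0 + 1 + 1 = 2 from rfl, show 0 + 1 = 1 from rfl]
      have k1 : (m + 3).choose 2 = (m + 2).choose 1 + (m + 2).choose 2 := rfl
      have k2 : (m + 2).choose 2 = (m + 1).choose 1 + (m + 1).choose 2 := rfl
      have k3 : (m + 1).choose 2 = m.choose 1 + m.choose 2 := rfl
      simp only [Nat.choose_one_right, Nat.choose_zero_right] at *
      omega
    · rw [show e + 1 + 3 = e + 4 from rfl, nn_add]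
      have k : ∀ a b : ℕ, (a + 1).choose (b + 1) = a.choose b + a.choose (b + 1) := fun _ _ => rfl
      have k1 := k (m + 1 + 1) (e + 1 + 1)
      have k2 := k (m + 1) (e + 1 + 1)
      have k3 := k (m + 1) (e + 1)
      have k4 := k m (e + 1 + 1)
      have k5 := k m (e + 1)
      have k6 := k m e
      rw [show m + 3 = m + 1 + 1 + 1 from rfl]
      omega
  rw [nn_add]
  have h4 : m.choose (e + 1) < 4 * m.choose e + 3 * nn m (e + 2) 3 := by
    refine Nat.lt_of_mul_lt_mul_right (a := (e + 1) * (s + 1)) ?_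
    calc m.choose (e + 1) * ((e + 1) * (s + 1)) = m.choose (e + 1) * (e + 1) * (s + 1) := by ring
      _ = m.choose e * (s * (s + 1)) := by rw [h1]; ring
      _ < m.choose e * ((e + 1) * (4 * (s + 1) + 3 * e)) := Nat.mul_lt_mul_of_pos_left h h0
      _ = 4 * m.choose e * ((e + 1) * (s + 1)) + 3 * (m.choose e * e) * (e + 1) := by ring
      _ = _ := by rw [← h2]; ring
  omega

lemma transport {α β : Type*} [DecidableEq α] [DecidableEq β] (e : α ≃ β) {u d v : ℕ}
    (h : ∃ 𝓕 : Finset (Finset α), (∀ A ∈ 𝓕, ∀ B ∈ 𝓕, (A ∆ B).card ≤ u) ∧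
      ∀ C, v ≤ (𝓕.filter fun F => d < (F ∆ C).card).card) :
    ∃ 𝓕 : Finset (Finset β), (∀ A ∈ 𝓕, ∀ B ∈ 𝓕, (A ∆ B).card ≤ u) ∧
      ∀ C, v ≤ (𝓕.filter fun F => d < (F ∆ C).card).card := by
  obtain ⟨𝓕, h1, h2⟩ := h
  have k : ∀ A B : Finset α, (A.image e ∆ B.image e).card = (A ∆ B).card := fun A B => by
    rw [← image_symmDiff _ _ e.injective, card_image_of_injective _ e.injective]
  refine ⟨𝓕.image (image e), fun A hA B hB => ?_, fun C => (h2 (C.image e.symm)).trans ?_⟩
  · obtain ⟨A', hA', rfl⟩ := mem_image.1 hA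
    obtain ⟨B', hB', rfl⟩ := mem_image.1 hB
    rw [k]
    exact h1 A' hA' B' hB'
  · refine card_le_card_of_injOn (image e) (fun F hF => ?_) (image_injective e.injective).injOn
    rw [mem_coe, mem_filter] at hF ⊢
    refine ⟨mem_image_of_mem _ hF.1, ?_⟩
    have : C = (C.image e.symm).image e := by simp [image_image]
    rw [this, k]
    exact hF.2

end Pool.Agent.P.MP_6327e0_co.U
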