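import Mathlib

/-! The numbers of large members of the families `{B : |B \ X| ≤ d - k}`, `|X| = 2 k`. -/

namespace Pool.Agent.P.MP_6327e0_co.U

open Finset

/-- The number of subsets of an `M`-set with more than `s` elements. -/
def up (M s : ℕ) : ℕ := ∑ i ∈ range (M + 1), if s < i then M.choose i else 0

lemma up_eq (M s : ℕ) : ∑ i ∈ Ioc s M, M.choose i = up M s := by
  rw [up, ← sum_filter]
  refine sum_congr ?_ fun _ _ => rfl
  ext i
  simp only [mem_Ioc, mem_filter, mem_range]
  omega

lemma up_succ (M s : ℕ) : up (M + 1) (s + 1) = up M (s + 1) + up M s := by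
  have e : up M (s + 1) = ∑ i ∈ range (M + 1), if s < i then M.choose (i + 1) else 0 := by
    have h1 := sum_range_succ (fun i => if s + 1 < i then M.choose i else 0) (M + 1)
    rw [sum_range_succ'] at h1
    simp only [Nat.choose_succ_self, ite_self, add_zero, Nat.not_lt_zero, if_false,
      Nat.add_lt_add_iff_right] at h1
    exact h1.symm
  rw [e, up, up, sum_range_succ', ← sum_add_distrib]
  simp only [Nat.not_lt_zero, if_false, add_zero, Nat.add_lt_add_iff_right]
  refine sum_congr rfl fun i _ => ?_
  split_ifs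
  · rw [Nat.choose_succ_succ', add_comm]
  · rfl

lemma up_step (M s : ℕ) (h : s + 1 ≤ M) : up M s = up M (s + 1) + M.choose (s + 1) := by
  have e : M.choose (s + 1) = ∑ i ∈ range (M + 1), if i = s + 1 then M.choose i else 0 := by
    rw [sum_ite_eq', if_pos (mem_range.2 (by omega))]
  rw [e, up, up, ← sum_add_distrib]
  refine sum_congr rfl fun i _ => ?_
  split_ifs <;> omega

lemma up_half (k : ℕ) : 2 * up (2 * k) k + (2 * k).choose k = 4 ^ k := by
  have e : (2 * k).choose k = ∑ i ∈ range (2 * k + 1), if i = k then (2 * k).choose i else 0 := by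
    rw [sum_ite_eq', if_pos (mem_range.2 (by omega))]
  have e2 : up (2 * k) k = ∑ i ∈ range (2 * k + 1), if i < k then (2 * k).choose i else 0 := by
    rw [up, ← sum_range_reflect]
    refine sum_congr rfl fun i hi => ?_
    rw [mem_range] at hi
    rw [show 2 * k + 1 - 1 - i = 2 * k - i by omega, Nat.choose_symm (by omega)]
    exact if_congr (by omega) rfl rfl
  have e3 : 4 ^ k = ∑ i ∈ range (2 * k + 1), (2 * k).choose i := by
    rw [Nat.sum_range_choose, pow_mul]
    norm_num
  rw [two_mul (up _ _), e, e3]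
  nth_rw 1 [e2]
  rw [up, ← sum_add_distrib, ← sum_add_distrib]
  refine sum_congr rfl fun i _ => ?_
  split_ifs <;> omega

lemma conv_step (m : ℕ) (f g : ℕ → ℕ) (j : ℕ)
    (h : ∀ a ≤ j, g a = f a + 2 * f (a + 1) + f (a + 2)) :
    ∑ a ∈ range (j + 2), (m + 2).choose a * f a + m.choose j * f (j + 2) =
      ∑ a ∈ range (j + 1), m.choose a * g a + m.choose (j + 1) * f (j + 1) := by
  induction j with
  | zero =>
    simp only [sum_range_succ, range_zero, sum_empty, h 0 le_rfl]
    simp
    ring
  | succ j ih =>
    have h1 := ih fun a ha => h a (by omega)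
    have h2 : (m + 2).choose (j + 2) = m.choose j + 2 * m.choose (j + 1) + m.choose (j + 2) := by
      rw [Nat.choose_succ_succ' (m + 1), Nat.choose_succ_succ' m, Nat.choose_succ_succ' m]
      ring
    rw [sum_range_succ _ (j + 2), sum_range_succ (fun a => m.choose a * g a) (j + 1),
      h (j + 1) le_rfl, h2]
    rw [show j + 1 + 1 = j + 2 from rfl, show j + 1 + 2 = j + 3 from rfl]
    linarith

/-- The overflow of the `k`-th family. -/
def be (n d k : ℕ) : ℕ := ∑ j ∈ range (d - k + 1), (n - 2 * k).choose j * up (2 * k) (d - j)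

lemma be_zero (n d : ℕ) : be n d 0 = 0 := by simp [be, up]

lemma be_step {n d k : ℕ} (hn : 2 * d < n) (h1 : 1 ≤ k) (h2 : k < d) :
    ∃ x y A C r s : ℕ, be n d k + x * (A + C) = be n d (k + 1) + y * A ∧ 0 < r ∧ y * r = x * (s + r) ∧
      C = (2 * k).choose k ∧ 4 ^ k = 2 * A + C ∧ n - 2 * k - 1 = s + 2 * r ∧ n - 2 * d - 1 = s := by
  obtain ⟨j, rfl⟩ : ∃ j, d = k + 1 + j := ⟨d - k - 1, by omega⟩
  obtain ⟨k, rfl⟩ : ∃ l, k = l + 1 := ⟨k - 1, by omega⟩
  obtain ⟨s, rfl⟩ : ∃ s, n = 2 * (k + 1 + 1 + j) + 1 + s := ⟨n - 2 * (k + 1 + 1 + j) - 1, by omega⟩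
  have h := conv_step (2 * j + 1 + s) (fun a => up (2 * (k + 1)) (k + 1 + 1 + j - a))
    (fun a => up (2 * (k + 1 + 1)) (k + 1 + 1 + j - a)) j fun a ha => by
      obtain ⟨e, rfl⟩ := Nat.exists_eq_add_of_le ha
      simp only [show k + 1 + 1 + (a + e) - a = k + e + 1 + 1 by omega,
        show k + 1 + 1 + (a + e) - (a + 1) = k + e + 1 by omega,
        show k + 1 + 1 + (a + e) - (a + 2) = k + e by omega,
        show 2 * (k + 1 + 1) = 2 * (k + 1) + 1 + 1 by ring, up_succ]
      ring
  simp only [show k + 1 + 1 + j - (j + 2) = k by omega,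
    show k + 1 + 1 + j - (j + 1) = k + 1 by omega] at h
  rw [up_step _ k (by omega)] at h
  refine ⟨(2 * j + 1 + s).choose j, (2 * j + 1 + s).choose (j + 1), up (2 * (k + 1)) (k + 1), _,
    j + 1, s, ?_, by omega, ?_, rfl, (up_half _).symm, by omega, by omega⟩
  · unfold be
    rw [show k + 1 + 1 + j - (k + 1) + 1 = j + 2 by omega,
      show k + 1 + 1 + j - (k + 1 + 1) + 1 = j + 1 by omega,
      show 2 * (k + 1 + 1 + j) + 1 + s - 2 * (k + 1) = 2 * j + 1 + s + 2 by omega,
      show 2 * (k + 1 + 1 + j) + 1 + s - 2 * (k + 1 + 1) = 2 * j + 1 + s by omega]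
    exact h
  · rw [Nat.choose_succ_right_eq]
    congr 1
    omega

lemma be_le {n d k : ℕ} (hn : 2 * d < n)
    (hk : IsLeast {i | (2 * i).choose i * (n - 2 * i - 1) ≤ 4 ^ i * (n - 2 * d - 1)} k) :
    k ≤ d ∧ ∀ l ≤ d, be n d l ≤ be n d k := by
  have hkd : k ≤ d := hk.2 (Nat.mul_le_mul_right _ (by
    have := up_half d
    omega))
  have hmono : ∀ i, k ≤ i → (2 * i).choose i * (n - 2 * i - 1) ≤ 4 ^ i * (n - 2 * d - 1) := by
    intro i hi
    induction i, hi using Nat.le_induction with
    | base => exact hk.1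
    | succ i _ ih =>
      have h1 : (2 * (i + 1)).choose (i + 1) ≤ 4 * (2 * i).choose i := by
        have := Nat.succ_mul_centralBinom_succ i
        rw [Nat.centralBinom, Nat.centralBinom] at this
        refine Nat.le_of_mul_le_mul_left ?_ (Nat.succ_pos i)
        rw [Nat.succ_eq_add_one, this, ← mul_assoc]
        exact Nat.mul_le_mul_right _ (by omega)
      calc _ ≤ 4 * (2 * i).choose i * (n - 2 * i - 1) := Nat.mul_le_mul h1 (by omega)
        _ ≤ 4 * (4 ^ i * (n - 2 * d - 1)) := by
          rw [mul_assoc]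
          exact Nat.mul_le_mul_left _ ih
        _ = _ := by ring
  refine ⟨hkd, fun l hl => ?_⟩
  rcases Nat.eq_zero_or_pos l with rfl | hl0
  · simp [be_zero]
  have hk0 : 1 ≤ k := by
    by_contra h
    obtain rfl : k = 0 := by omega
    have := hk.1
    simp only [Set.mem_ofPred_eq, mul_zero, Nat.choose_self, one_mul, pow_zero] at this
    omega
  rcases le_total l k with h | h
  · induction h using Nat.decreasingInduction with
    | self => exact le_rfl
    | of_succ i hi ih =>
      refine le_trans ?_ (ih (by omega) (by omega))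
      have h1 : ¬ (2 * i).choose i * (n - 2 * i - 1) ≤ 4 ^ i * (n - 2 * d - 1) :=
        fun h => absurd (hk.2 h) (by omega)
      obtain ⟨x, y, A, C, r, s, e1, e2, e3, e4, e5, e6, e7⟩ := be_step hn hl0 (show i < d by omega)
      rw [← e4, e5, e6, e7] at h1
      have h2 : A * s ≤ C * r := by nlinarith
      have h3 : y * A ≤ x * (A + C) := Nat.le_of_mul_le_mul_right (by
        have := Nat.mul_le_mul_left x h2
        calc y * A * r = y * r * A := by ring
          _ = x * (A * s) + x * A * r := by rw [e3]; ring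
          _ ≤ x * (C * r) + x * A * r := by omega
          _ = _ := by ring) e2
      omega
  · induction l, h using Nat.le_induction with
    | base => exact le_rfl
    | succ i hi ih =>
      refine le_trans ?_ (ih (by omega) (by omega))
      have h1 := hmono i hi
      obtain ⟨x, y, A, C, r, s, e1, e2, e3, e4, e5, e6, e7⟩ :=
        be_step hn (show 1 ≤ i by omega) (show i < d by omega)
      rw [← e4, e5, e6, e7] at h1
      have h2 : C * r ≤ A * s := by nlinarith
      have h3 : x * (A + C) ≤ y * A := Nat.le_of_mul_le_mul_right (by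
        have := Nat.mul_le_mul_left x h2
        calc x * (A + C) * r = x * (C * r) + x * A * r := by ring
          _ ≤ x * (A * s) + x * A * r := by omega
          _ = y * r * A := by rw [e3]; ring
          _ = _ := by ring) e2
      omega

variable {α : Type*} [DecidableEq α]

lemma card_split {S T : Finset α} (h : Disjoint S T) (P : ℕ → ℕ → Prop) [∀ a b, Decidable (P a b)] :
    ((S ∪ T).powerset.filter fun F => P (F ∩ S).card (F ∩ T).card).card =
      ∑ a ∈ range (S.card + 1), S.card.choose a *
        ∑ b ∈ range (T.card + 1), if P a b then T.card.choose b else 0 := by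
  have e : ((S.powerset ×ˢ T.powerset).filter fun x => P x.1.card x.2.card).card =
      ((S ∪ T).powerset.filter fun F => P (F ∩ S).card (F ∩ T).card).card := by
    have k : ∀ x ∈ S.powerset ×ˢ T.powerset, (x.1 ∪ x.2) ∩ S = x.1 ∧ (x.1 ∪ x.2) ∩ T = x.2 := by
      intro x hx
      simp only [mem_product, mem_powerset] at hx
      rw [union_inter_distrib_right, union_inter_distrib_right, inter_eq_left.2 hx.1,
        inter_eq_left.2 hx.2, disjoint_iff_inter_eq_empty.1 (h.symm.mono_left hx.2),
        disjoint_iff_inter_eq_empty.1 (h.mono_left hx.1)]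
      simp
    refine card_bij' (fun x _ => x.1 ∪ x.2) (fun F _ => (F ∩ S, F ∩ T)) (fun x hx => ?_)
      (fun F hF => ?_) (fun x hx => ?_) fun F hF => ?_
    · rw [mem_filter] at hx ⊢
      rw [(k x hx.1).1, (k x hx.1).2, mem_powerset]
      have := hx.1
      simp only [mem_product, mem_powerset] at this
      exact ⟨union_subset_union this.1 this.2, hx.2⟩
    · rw [mem_filter] at hF ⊢
      exact ⟨by simp, hF.2⟩
    · rw [mem_filter] at hx
      exact Prod.ext (k x hx.1).1 (k x hx.1).2
    · rw [mem_filter, mem_powerset] at hF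
      simp only
      rw [← inter_union_distrib_left, inter_eq_left.2 hF.1]
  rw [← e, card_filter, sum_product]
  have h1 := sum_powerset_apply_card (x := S) fun a =>
    ∑ b ∈ range (T.card + 1), if P a b then T.card.choose b else 0
  simp only [smul_eq_mul] at h1
  rw [← h1]
  refine sum_congr rfl fun A _ => ?_
  have h2 := sum_powerset_apply_card (x := T) fun b => if P A.card b then 1 else 0
  simp only [smul_eq_mul, mul_ite, mul_one, mul_zero] at h2
  exact h2

lemma card_ov {S T : Finset α} (h : Disjoint S T) {n d k : ℕ} (hn : 2 * d < n) (hk : k ≤ d)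
    (hS : S.card = n - 2 * k) (hT : T.card = 2 * k) :
    ((S ∪ T).powerset.filter fun F => d < (F ∩ S).card + (F ∩ T).card ∧
      (F ∩ S).card ≤ d - k).card = be n d k := by
  rw [card_split h fun a b => d < a + b ∧ a ≤ d - k, hS, hT, be]
  symm
  refine sum_subset_zero_on_sdiff (range_subset_range.2 (by omega)) (fun a ha => ?_) fun a ha => ?_
  · simp only [mem_sdiff, mem_range] at ha
    rw [sum_eq_zero fun b _ => if_neg (by omega), mul_zero]
  · rw [mem_range] at ha
    rw [up]
    congr 1
    exact sum_congr rfl fun b _ => if_congr (by omega) rfl rfl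

open scoped symmDiff in
/-- In a down-closed family the empty centre is optimal. -/
lemma down_centre {𝓕 : Finset (Finset α)} (h : ∀ F ∈ 𝓕, ∀ x, F.erase x ∈ 𝓕) (d c : ℕ)
    (C : Finset α) : (𝓕.filter fun F => d < c + F.card).card ≤
      (𝓕.filter fun F => d < c + (F ∆ C).card).card := by
  induction C using Finset.induction_on with
  | empty => simp [← bot_eq_empty]
  | insert x C hx ih =>
    refine ih.trans ?_
    have e1 : ∀ F : Finset α, x ∉ F → (F ∆ insert x C).card = (F ∆ C).card + 1 := fun F hF => by
      rw [← card_insert_of_notMem (s := F ∆ C) (a := x) (by simp [mem_symmDiff, hF, hx])]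
      congr 1
      ext y
      by_cases e : y = x <;> simp [mem_symmDiff, e, hF, hx]
    have e2 : ∀ F : Finset α, x ∈ F → F.erase x ∆ insert x C = F ∆ C := fun F hF => by
      ext y
      by_cases e : y = x <;> simp [mem_symmDiff, e, hF, hx]
    have e3 : ∀ F : Finset α, x ∈ F → F.erase x ∆ C = F ∆ insert x C := fun F hF => by
      ext y
      by_cases e : y = x <;> simp [mem_symmDiff, e, hF, hx]
    have e4 : ∀ F : Finset α, d < c + (F ∆ C).card → ¬ d < c + (F ∆ insert x C).card → x ∈ F :=
      fun F h1 h2 => by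
        by_contra h3
        have := e1 F h3
        omega
    refine card_le_card_of_injOn
      (fun F => if d < c + (F ∆ insert x C).card then F else F.erase x) (fun F hF => ?_)
      fun F hF G hG e => ?_
    · rw [mem_coe, mem_filter] at hF ⊢
      beta_reduce
      split_ifs with h1
      · exact ⟨hF.1, h1⟩
      · rw [e2 F (e4 F hF.2 h1)]
        exact ⟨h F hF.1 x, hF.2⟩
    · rw [mem_coe, mem_filter] at hF hG
      simp only at e
      split_ifs at e with h1 h2 h2
      · exact e
      · rw [← e3 G (e4 G hG.2 h2), ← e] at h2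
        exact absurd hF.2 h2
      · rw [← e3 F (e4 F hF.2 h1), e] at h1
        exact absurd hG.2 h1
      · rw [← insert_erase (e4 F hF.2 h1), e, insert_erase (e4 G hG.2 h2)]

end Pool.Agent.P.MP_6327e0_co.U
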