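import Pool.Agent.P.MP_6327e0_co.U.Opt
import Pool.Agent.P.MP_6327e0_co.U.Num

/-! The largest overflow of a `2 d`-union family. -/

namespace Pool.Agent.P.MP_6327e0_co.U

open Finset

lemma fr_le {n d t j : ℕ} (hn : 2 * d < n) (ht : n = t + 2 * d) :
    ∃ l ≤ d, (fr n t j).card ≤ be n d l := by
  by_cases hj : j ≤ d
  · refine ⟨d - j, by omega, ?_⟩
    have hd : Disjoint (range (t + 2 * j)) (Ico (t + 2 * j) n) := disjoint_left.2 fun y h1 h2 => by
      have := mem_range.1 h1
      have := (mem_Ico.1 h2).1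
      omega
    have hu : range (t + 2 * j) ∪ Ico (t + 2 * j) n = range n := by
      ext y
      simp only [mem_union, mem_range, mem_Ico]
      omega
    rw [← card_ov hd hn (show d - j ≤ d by omega) (by rw [card_range]; omega)
      (by rw [Nat.card_Ico]; omega), hu]
    refine card_le_card_of_injOn (fun G => range n \ G) (fun G hG => ?_) fun G hG G' hG' e => ?_
    · rw [mem_coe, fr, mem_filter, mem_powerset] at hG
      obtain ⟨g1, g2, g3⟩ := hG
      rw [mem_coe, mem_filter, mem_powerset]
      beta_reduce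
      have h1 : (range n \ G ∩ range (t + 2 * j)).card + (range n \ G ∩ Ico (t + 2 * j) n).card =
          (range n \ G).card := by
        rw [← card_union_of_disjoint (hd.mono inter_subset_right inter_subset_right),
          ← inter_union_distrib_left, hu, inter_eq_left.2 sdiff_subset]
      have h2 := card_sdiff_add_card_eq_card g1
      have h3 : range n \ G ∩ range (t + 2 * j) = range (t + 2 * j) \ (G ∩ range (t + 2 * j)) := by
        ext y
        simp only [mem_inter, mem_sdiff, mem_range]
        constructor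
        · exact fun h => ⟨h.2, fun k => h.1.2 k.1⟩
        · exact fun h => ⟨⟨by omega, fun k => h.2 ⟨k, h.1⟩⟩, h.1⟩
      have h4 := card_sdiff_add_card_eq_card (inter_subset_right (s₁ := G) (s₂ := range (t + 2 * j)))
      rw [← h3] at h4
      rw [card_range] at h2 h4
      exact ⟨sdiff_subset, by omega, by omega⟩
    · rw [mem_coe, fr, mem_filter, mem_powerset] at hG hG'
      simp only at e
      rw [← Finset.sdiff_sdiff_eq_self hG.1, e, Finset.sdiff_sdiff_eq_self hG'.1]
  · refine ⟨0, Nat.zero_le _, ?_⟩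
    have : fr n t j = ∅ := filter_eq_empty_iff.2 fun G _ h => by
      have := card_le_card (inter_subset_left (s₁ := G) (s₂ := range (t + 2 * j)))
      omega
    simp [this]

theorem upper {n d : ℕ} (hn : 2 * d < n) {𝓕 : Finset (Finset (Fin n))}
    (h : ∀ A ∈ 𝓕, ∀ B ∈ 𝓕, (A ∪ B).card ≤ 2 * d) :
    ∃ l ≤ d, (𝓕.filter fun F => d < F.card).card ≤ be n d l := by
  obtain ⟨t, ht⟩ : ∃ t, n = t + 2 * d := ⟨n - 2 * d, by omega⟩
  have hinj : Function.Injective fun F : Finset (Fin n) => Fᶜ.map Fin.valEmbedding :=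
    fun F G e => compl_injective (map_injective _ e)
  obtain ⟨j, hj⟩ := card_le_fr (n := n) (t := t) (by omega)
    (𝓕 := (𝓕.filter fun F => d < F.card).image fun F => Fᶜ.map Fin.valEmbedding)
    (fun G hG => by
      obtain ⟨F, hF, rfl⟩ := mem_image.1 hG
      rw [mem_filter] at hF
      refine ⟨fun y hy => ?_, ?_⟩
      · obtain ⟨z, -, rfl⟩ := mem_map.1 hy
        exact mem_range.2 z.2
      · have := card_add_card_compl F
        rw [Fintype.card_fin] at this
        rw [card_map]
        omega)
    (fun G hG G' hG' => by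
      obtain ⟨F, hF, rfl⟩ := mem_image.1 hG
      obtain ⟨F', hF', rfl⟩ := mem_image.1 hG'
      have h1 := h F (mem_filter.1 hF).1 F' (mem_filter.1 hF').1
      have h2 := card_add_card_compl (F ∪ F')
      rw [Fintype.card_fin] at h2
      rw [← map_inter, card_map, ← compl_union]
      omega)
  rw [card_image_of_injective _ hinj] at hj
  obtain ⟨l, l1, l2⟩ := fr_le (j := j) hn ht
  exact ⟨l, l1, hj.trans l2⟩

open scoped symmDiff in
theorem lower {n d k : ℕ} (hn : 2 * d < n) (hk : k ≤ d) : ∃ 𝓕 : Finset (Finset (Fin n)),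
    (∀ A ∈ 𝓕, ∀ B ∈ 𝓕, (A ∪ B).card ≤ 2 * d) ∧
      ∀ C, be n d k ≤ (𝓕.filter fun F => d < (F ∆ C).card).card := by
  obtain ⟨X, -, hX⟩ := exists_subset_card_eq (s := (univ : Finset (Fin n))) (n := 2 * k)
    (by rw [card_univ, Fintype.card_fin]; omega)
  have hc : ∀ F : Finset (Fin n), (F ∩ Xᶜ).card + (F ∩ X).card = F.card := fun F => by
    rw [← sdiff_eq_inter_compl, card_sdiff_add_card_inter]
  refine ⟨univ.filter fun F => (F ∩ Xᶜ).card ≤ d - k, fun A hA B hB => ?_, fun C => ?_⟩
  · rw [mem_filter] at hA hB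
    have h1 := hc (A ∪ B)
    have h2 := card_le_card (inter_subset_right (s₁ := A ∪ B) (s₂ := X))
    have h3 := card_union_le (A ∩ Xᶜ) (B ∩ Xᶜ)
    rw [← union_inter_distrib_right] at h3
    omega
  · have h0 := down_centre (𝓕 := univ.filter fun F => (F ∩ Xᶜ).card ≤ d - k) (fun F hF x => by
      rw [mem_filter] at hF ⊢
      exact ⟨mem_univ _, (card_le_card (inter_subset_inter_right (erase_subset _ _))).trans hF.2⟩)
      d 0 C
    simp only [zero_add] at h0
    refine le_trans ?_ h0
    rw [← card_ov (S := Xᶜ) (T := X) disjoint_compl_left hn hk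
      (by rw [card_compl, Fintype.card_fin, hX]) hX]
    refine card_le_card fun F hF => ?_
    rw [mem_filter, hc] at hF
    simp only [mem_filter, mem_univ, true_and]
    exact hF.2.symm

end Pool.Agent.P.MP_6327e0_co.U
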