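import Pool.Agent.P.MP_ed1e41_co.H.Mono

/-! Largest `t`-intersecting families of sets of size below `(n + t) / 2`. -/

namespace Pool.Agent.P.MP_6327e0_co.U

open Finset Pool.Agent.P.MP_ed1e41_co Pool.Agent.P.MP_ed1e41_co.Hull

/-- Shifted `t`-intersecting families of small sets. -/
structure Gd (n t : ℕ) (𝓕 : Finset (Finset ℕ)) : Prop where
  sub : ∀ F ∈ 𝓕, F ⊆ range n ∧ 2 * F.card + 1 ≤ n + t
  int : ∀ F ∈ 𝓕, ∀ G ∈ 𝓕, t ≤ (F ∩ G).card
  sh : Shifted 𝓕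

lemma conflict' {n t x : ℕ} {𝓕 : Finset (Finset ℕ)} (h : Gd n t 𝓕) {F G : Finset ℕ}
    (hF : F ∈ 𝓕) (hG : G ∈ 𝓕) (h1 : x ∈ F) (h2 : x + 1 ∉ F) (hc : (sw x F ∩ G).card < t) :
    G ∈ Crit 𝓕 x (2 * t - ht F (x + 1)) := by
  have h0 := h.int F hF G hG
  have hsub : (F ∩ G).erase x ⊆ sw x F ∩ G := fun y hy => by
    simp only [mem_erase, mem_inter, mem_sw] at hy ⊢
    tauto
  have hx : x ∈ G := by
    by_contra hx
    rw [erase_eq_of_notMem (by simp [hx])] at hsub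
    have := card_le_card hsub
    omega
  have hxm : x ∈ F ∩ G := mem_inter.2 ⟨h1, hx⟩
  have h3 := card_erase_of_mem hxm
  have h4 := card_le_card hsub
  have hx1 : x + 1 ∉ G := fun hx1 => by
    have h5 : insert (x + 1) ((F ∩ G).erase x) ⊆ sw x F ∩ G :=
      insert_subset (by simp [mem_sw, hx1]) hsub
    have := card_le_card h5
    rw [card_insert_of_notMem (by simp [h2])] at this
    omega
  have key : ∀ y z, y ∉ F → z ∈ F ∩ G → insert y (G.erase z) ∉ 𝓕 := fun y z hy hz hm => by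
    have h5 := h.int F hF _ hm
    rw [inter_insert_of_notMem hy, inter_erase, card_erase_of_mem hz] at h5
    omega
  refine mem_Crit.2 ⟨hG, hx, hx1, key _ _ h2 hxm, ?_⟩
  have h5 : (F ∪ G) ∩ range (x + 1) = range (x + 1) := inter_eq_right.2 fun y hy => by
    by_contra hc
    rw [mem_union, not_or] at hc
    have h6 : y ≠ x := fun e => hc.1 (e ▸ h1)
    have := mem_range.1 hy
    exact key y x hc.1 hxm (h.sh G hG y x (by omega) hx hc.2)
  have h6 : F ∩ G ∩ range (x + 1) = F ∩ G := inter_eq_left.2 fun z hz => by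
    by_contra hc
    have h7 : z ≠ x + 1 := fun e => h2 (e ▸ (mem_inter.1 hz).1)
    rw [mem_range] at hc
    exact key (x + 1) z h2 hz (h.sh G hG (x + 1) z (by omega) (mem_inter.1 hz).2 hx1)
  have h7 := card_union_add_card_inter (F ∩ range (x + 1)) (G ∩ range (x + 1))
  rw [← union_inter_distrib_right, h5, card_range, inter_inter_inter_comm, inter_self, h6] at h7
  unfold ht
  push_cast
  omega

lemma Gd.ex {n t x : ℕ} {𝓕 : Finset (Finset ℕ)} (h : Gd n t 𝓕) (hx : x + 1 < n) {c c' : ℤ}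
    (hc : c + c' = 2 * t) (hne : c ≠ c') : Gd n t (Ex 𝓕 x c c') := by
  have hmem : ∀ G, G ∈ Ex 𝓕 x c c' ↔ (G ∈ 𝓕 ∧ G ∉ Crit 𝓕 x c') ∨ ∃ F ∈ Crit 𝓕 x c, sw x F = G :=
    fun G => by simp only [Ex, mem_union, mem_sdiff, mem_image]
  have hmix : ∀ F ∈ Crit 𝓕 x c, ∀ G ∈ 𝓕, G ∉ Crit 𝓕 x c' → t ≤ (sw x F ∩ G).card := by
    intro F hF G hG hG'
    rw [mem_Crit] at hF
    refine not_lt.1 fun hlt => hG' ?_
    have := conflict' h hF.1 hG hF.2.1 hF.2.2.1 hlt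
    rwa [hF.2.2.2.2, show 2 * (t : ℤ) - c = c' by omega] at this
  refine ⟨fun G hG => ?_, fun G hG G' hG' => ?_, shifted_of_adj fun G hG y y1 y2 => ?_⟩
  · rcases (hmem G).1 hG with h1 | ⟨F, hF, rfl⟩
    · exact h.sub _ h1.1
    · rw [mem_Crit] at hF
      have h1 := h.sub _ hF.1
      refine ⟨insert_subset (mem_range.2 hx) ((erase_subset _ _).trans h1.1), ?_⟩
      rw [sw, card_shift hF.2.2.1 hF.2.1]
      exact h1.2
  · rcases (hmem G).1 hG with h1 | ⟨F, hF, rfl⟩ <;> rcases (hmem G').1 hG' with h2 | ⟨F', hF', rfl⟩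
    · exact h.int _ h1.1 _ h2.1
    · rw [inter_comm]
      exact hmix _ hF' _ h1.1 h1.2
    · exact hmix _ hF _ h2.1 h2.2
    · rw [mem_Crit] at hF hF'
      have e : sw x F ∩ sw x F' = insert (x + 1) ((F ∩ F').erase x) := by
        ext z
        simp only [mem_inter, mem_sw, mem_insert, mem_erase]
        tauto
      rw [e, card_shift (by simp [hF.2.2.1]) (by simp [hF.2.1, hF'.2.1])]
      exact h.int _ hF.1 _ hF'.1
  · have hht : ∀ F : Finset ℕ, y + 1 ∈ F → y ∉ F → y ≠ x →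
        ht (insert y (F.erase (y + 1))) (x + 1) = ht F (x + 1) := fun F f1 f2 f3 => by
      have := ht_sw (x := y) (F := insert y (F.erase (y + 1))) (by simp) (by simp) (x + 1)
      rw [sw_us f1 f2, if_neg (by omega)] at this
      omega
    rw [hmem]
    rcases (hmem G).1 hG with h1 | ⟨F, hF, rfl⟩
    · refine Or.inl ⟨h.sh G h1.1 y (y + 1) (by omega) y1 y2, fun hc => ?_⟩
      rw [mem_Crit] at hc
      obtain ⟨-, c1, c2, c3, c4⟩ := hc
      have e1 : y ≠ x := fun e => c3 (by rw [← e, sw_us y1 y2]; exact h1.1)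
      have e2 : y ≠ x + 1 := fun e => c2 (by simp [e])
      have e3 : y + 1 ≠ x := fun e => by simp [← e] at c1
      have c5 : x ∈ G := by simpa [e1.symm, e3.symm] using c1
      have c6 : x + 1 ∉ G := by simpa [e1.symm, e2.symm] using c2
      refine h1.2 (mem_Crit.2 ⟨h1.1, c5, c6, fun c7 => c3 ?_, by rw [← hht G y1 y2 e1, c4]⟩)
      rw [sw_comm e1 e2 e3]
      exact h.sh _ c7 y (y + 1) (by omega) (by simp [mem_sw, y1, e3]) (by simp [mem_sw, y2, e2])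
    · rw [mem_Crit] at hF
      obtain ⟨f0, f1, f2, f3, f4⟩ := hF
      by_cases e1 : y = x
      · rw [e1, us_sw f1 f2]
        exact Or.inl ⟨f0, fun hc => hne (f4.symm.trans (mem_Crit.1 hc).2.2.2.2)⟩
      have e2 : y ≠ x + 1 := fun e => y2 (by simp [e, mem_sw])
      have e3 : y + 1 ≠ x := fun e => by simp [← e, mem_sw] at y1
      have c5 : y + 1 ∈ F := by simpa [mem_sw, e1, e3] using y1
      have c6 : y ∉ F := by simpa [mem_sw, e1, e2] using y2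
      rw [← sw_comm e1 e2 e3]
      by_cases c7 : sw x (insert y (F.erase (y + 1))) ∈ 𝓕
      · exact Or.inl ⟨c7, fun hc => by simpa [mem_sw] using (mem_Crit.1 hc).2.1⟩
      · exact Or.inr ⟨_, mem_Crit.2 ⟨h.sh F f0 y (y + 1) (by omega) c5 c6,
          by simp [f1, e3.symm], by simp [f2, e2.symm], c7, by rw [hht F c5 c6 e1, f4]⟩, rfl⟩

/-- A largest family in which only peaks at the height `t` are critical. -/
theorem exists_opt' (n t : ℕ) : ∃ 𝓕, Gd n t 𝓕 ∧ (∀ 𝓖, Gd n t 𝓖 → 𝓖.card ≤ 𝓕.card) ∧ Cl n t 𝓕 := by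
  classical
  let W : Finset (Finset ℕ) → ℤ := fun 𝓖 => ∑ _F ∈ 𝓖, (1 : ℤ)
  let P : Finset (Finset ℕ) → ℤ := fun 𝓖 => ∑ F ∈ 𝓖, ((∑ y ∈ F, y : ℕ) : ℤ)
  have hW : ∀ 𝓖, (𝓖.card : ℤ) = W 𝓖 := fun 𝓖 => by simp [W]
  let U := (range n).powerset.powerset.filter (Gd n t)
  have hU : ∀ 𝓖, 𝓖 ∈ U ↔ Gd n t 𝓖 := fun 𝓖 => by
    simp only [U, mem_filter, mem_powerset]
    exact ⟨fun h => h.2, fun h => ⟨fun F hF => mem_powerset.2 (h.sub F hF).1, h⟩⟩
  obtain ⟨𝓐, a1, a2⟩ := exists_max_image U W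
    ⟨∅, (hU _).2 ⟨by simp, by simp, by simp [Shifted]⟩⟩
  obtain ⟨𝓕, f1, f2⟩ := exists_max_image (U.filter fun 𝓖 => W 𝓖 = W 𝓐) P
    ⟨𝓐, mem_filter.2 ⟨a1, rfl⟩⟩
  rw [mem_filter, hU] at f1
  refine ⟨𝓕, f1.1, fun 𝓖 h => ?_, ?_⟩
  · have := a2 _ ((hU _).2 h)
    rw [← f1.2, ← hW, ← hW] at this
    exact_mod_cast this
  intro F hF x x1 x2 x3 x4
  by_contra x5
  obtain ⟨c, hc⟩ : ∃ c, ht F (x + 1) = c := ⟨_, rfl⟩
  have g1 := f1.1.ex x1 (c := c) (c' := 2 * t - c) (by ring) (by omega)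
  have g2 := f1.1.ex x1 (c := 2 * t - c) (c' := c) (by ring) (by omega)
  have w1 := a2 _ ((hU _).2 g1)
  have w2 := a2 _ ((hU _).2 g2)
  have w3 := sum_Ex 𝓕 x c (2 * t - c) fun _ => (1 : ℤ)
  have w4 := sum_Ex 𝓕 x (2 * t - c) c fun _ => (1 : ℤ)
  have w7 := f1.2
  have p1 := f2 _ (mem_filter.2 ⟨(hU _).2 g1, by simp only [W] at *; omega⟩)
  have p2 := f2 _ (mem_filter.2 ⟨(hU _).2 g2, by simp only [W] at *; omega⟩)
  have p0 : ∀ c, ∑ G ∈ Crit 𝓕 x c, ((∑ y ∈ sw x G, y : ℕ) : ℤ) =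
      ∑ G ∈ Crit 𝓕 x c, ((∑ y ∈ G, y : ℕ) : ℤ) + (Crit 𝓕 x c).card := fun c => by
    rw [card_eq_sum_ones, Nat.cast_sum (Crit 𝓕 x c), ← sum_add_distrib]
    refine sum_congr rfl fun G hG => ?_
    rw [mem_Crit] at hG
    have := sum_shift hG.2.2.1 hG.2.1
    unfold sw
    omega
  have p3 := sum_Ex 𝓕 x c (2 * t - c) fun F => ((∑ y ∈ F, y : ℕ) : ℤ)
  have p4 := sum_Ex 𝓕 x (2 * t - c) c fun F => ((∑ y ∈ F, y : ℕ) : ℤ)
  have p5 : 0 < (Crit 𝓕 x c).card := card_pos.2 ⟨F, mem_Crit.2 ⟨hF, x2, x3, x5, hc⟩⟩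
  rw [p0] at p3 p4
  simp only [P] at p1 p2
  omega

lemma exists_low' {n t : ℕ} {𝓕 : Finset (Finset ℕ)} (h : Gd n t 𝓕) (hc : Cl n t 𝓕)
    {F : Finset ℕ} (hF : F ∈ 𝓕) : ∃ H ∈ 𝓕, ∀ x, ht H x ≤ ht F x ∧ ht H x ≤ t := by
  classical
  obtain ⟨H, h1, h2⟩ := exists_min_image (𝓕.filter fun H => ∀ x, ht H x ≤ ht F x)
    (fun H => ∑ x ∈ range n, ht H x) ⟨F, mem_filter.2 ⟨hF, fun _ => le_rfl⟩⟩
  rw [mem_filter] at h1
  refine ⟨H, h1.1, fun y => ⟨h1.2 y, not_lt.1 fun hy => ?_⟩⟩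
  have h3 := h.sub _ h1.1
  obtain ⟨x, x1, x2, x3, x4⟩ := exists_peak (n := n) (fun _ => (t : ℤ)) (fun x => by omega)
    (fun x => by omega) (by positivity)
    (fun x hx => by rw [ht_end h3.1 hx]; omega) hy
  have x5 : ∀ y, ht (sw x H) y ≤ ht H y := fun y => by
    rw [ht_sw x2 x3]
    split_ifs <;> omega
  refine not_lt.2 (h2 _ (mem_filter.2 ⟨hc H h1.1 x x1 x2 x3 x4.ne', fun y =>
    (x5 y).trans (h1.2 y)⟩)) (sum_lt_sum (fun y _ => x5 y) ⟨x + 1, mem_range.2 x1, ?_⟩)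
  rw [ht_sw x2 x3, if_pos rfl]
  omega

theorem int_pat' {n t : ℕ} {𝓕 : Finset (Finset ℕ)} (h : Gd n t 𝓕) (hc : Cl n t 𝓕)
    {F G : Finset ℕ} (hF : F ∈ 𝓕) (hG : G ∈ 𝓕) : ∃ i, V t 0 F i ∧ V t 0 G i := by
  obtain ⟨F', f1, f2⟩ := exists_low' h hc hF
  obtain ⟨G', g1, g2⟩ := exists_low' h hc hG
  obtain ⟨x, hx⟩ := frankl_lemma h.sh h.int f1 G' g1
  have h1 : 2 * (t : ℤ) ≤ ht F' x + ht G' x := by
    unfold ht
    omega
  have f3 := f2 x
  have g3 := g2 x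
  obtain ⟨i, rfl⟩ := V_of_eq (show ht F' x = t by omega)
  refine ⟨i, ?_, ?_⟩ <;> unfold V <;> omega

theorem exists_shifted' {n t : ℕ} {𝓕 : Finset (Finset ℕ)}
    (h1 : ∀ F ∈ 𝓕, F ⊆ range n ∧ 2 * F.card + 1 ≤ n + t)
    (h2 : ∀ F ∈ 𝓕, ∀ G ∈ 𝓕, t ≤ (F ∩ G).card) : ∃ 𝓖, Gd n t 𝓖 ∧ 𝓖.card = 𝓕.card := by
  classical
  induction hc : ∑ A ∈ 𝓕, ∑ x ∈ A, x using Nat.strong_induction_on generalizing 𝓕 with
  | _ c ih =>
    by_cases hs : Shifted 𝓕
    · exact ⟨𝓕, ⟨h1, h2, hs⟩, rfl⟩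
    · unfold Shifted at hs
      push Not at hs
      obtain ⟨F, hF, i, j, hij, hj, hi, hn⟩ := hs
      obtain ⟨𝓖, g1, g2⟩ := ih _ (hc ▸ comp_measure hij hF hi hj hn)
        (𝓕 := UV.compression ({i} : Finset ℕ) {j} 𝓕) (fun G hG => by
          rcases mem_comp hij.ne hG with ⟨k1, -⟩ | ⟨A, hA, hiA, hjA, rfl⟩
          · exact h1 _ k1
          · have k2 := h1 _ hA
            rw [card_shift hiA hjA]
            refine ⟨insert_subset ?_ ((erase_subset _ _).trans k2.1), k2.2⟩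
            have := mem_range.1 (k2.1 hjA)
            exact mem_range.2 (by omega)) (comp_inter hij.ne h2) rfl
      exact ⟨𝓖, g1, by rw [g2, UV.card_compression]⟩

/-- The small members of a Frankl family. -/
def fr (n t j : ℕ) : Finset (Finset ℕ) :=
  (range n).powerset.filter fun G => 2 * G.card + 1 ≤ n + t ∧ t + j ≤ (G ∩ range (t + 2 * j)).card

theorem card_le_fr {n t : ℕ} (ht1 : 1 ≤ t) {𝓕 : Finset (Finset ℕ)}
    (h1 : ∀ F ∈ 𝓕, F ⊆ range n ∧ 2 * F.card + 1 ≤ n + t)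
    (h2 : ∀ F ∈ 𝓕, ∀ G ∈ 𝓕, t ≤ (F ∩ G).card) : ∃ j, 𝓕.card ≤ (fr n t j).card := by
  classical
  obtain ⟨𝓖, g1, g2⟩ := exists_shifted' h1 h2
  obtain ⟨𝓐, a1, a2, a3⟩ := exists_opt' n t
  suffices h : ∃ j, 𝓐.card ≤ (fr n t j).card by
    obtain ⟨j, hj⟩ := h
    exact ⟨j, g2 ▸ (a2 _ g1).trans hj⟩
  rcases 𝓐.eq_empty_or_nonempty with rfl | hne
  · exact ⟨0, by simp⟩
  have hex : ∀ F ∈ 𝓐, ∃ i, V t 0 F i := fun F hF => by
    obtain ⟨i, hi, -⟩ := int_pat' a1 a3 hF hF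
    exact ⟨i, hi⟩
  obtain ⟨A, hA, hmax⟩ := exists_max_image 𝓐 (fun F => sInf {i | V t 0 F i}) hne
  refine ⟨sInf {i | V t 0 A i}, ?_⟩
  set j := sInf {i | V t 0 A i} with hj
  let X : (ℕ → Prop) → Prop := fun σ => ∃ F ∈ 𝓐, V t 0 F = σ
  have key : ∀ k, (𝓐.filter fun F => F.card = k).card ≤ ((fr n t j).filter fun F => F.card = k).card := by
    intro k
    by_cases hk : 2 * k + 1 ≤ n + t
    · have c1 := cnt_le (t := t) (M := 0) (n := n) (k := k) (s := 0) (j := j) (X := X)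
        (by
          rintro _ _ ⟨F, hF, rfl⟩ ⟨G, hG, rfl⟩
          obtain ⟨i, i1, i2⟩ := int_pat' a1 a3 hF hG
          exact ⟨i, Nat.zero_le _, i1, i2⟩)
        (by
          rintro _ ⟨F, hF, rfl⟩
          exact ⟨_, hmax F hF, Nat.zero_le _, Nat.sInf_mem (hex F hF)⟩)
        (by
          rintro _ ⟨F, hF, rfl⟩
          obtain ⟨i, i1, i2⟩ := int_pat' a1 a3 hF hA
          exact ⟨i, Nat.sInf_le i2, i1⟩) (by omega) hk
      rw [← card_fam, ← card_fam, ← frankl_eq] at c1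
      refine (card_le_card fun F hF => ?_).trans (c1.trans (card_le_card fun F hF => ?_))
      · rw [mem_filter] at hF
        exact mem_fam.2 ⟨(a1.sub F hF.1).1, by omega, F, hF.1, rfl⟩
      · rw [frankl, mem_filter, mem_powersetCard] at hF
        rw [mem_filter, fr, mem_filter, mem_powerset]
        exact ⟨⟨hF.1.1, by omega, hF.2⟩, hF.1.2⟩
    · have : (𝓐.filter fun F => F.card = k) = ∅ :=
        filter_eq_empty_iff.2 fun F hF e => hk (e ▸ (a1.sub F hF).2)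
      simp [this]
  rw [card_eq_sum_card_fiberwise (f := card) (s := 𝓐) (t := range (n + 1)) fun F hF => by
      have := card_le_card (a1.sub F hF).1
      rw [card_range] at this
      exact mem_coe.2 (mem_range.2 (by omega)),
    card_eq_sum_card_fiberwise (f := card) (s := fr n t j) (t := range (n + 1)) fun F hF => by
      have := card_le_card (mem_powerset.1 (mem_filter.1 hF).1)
      rw [card_range] at this
      exact mem_coe.2 (mem_range.2 (by omega))]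
  exact sum_le_sum fun k _ => key k

end Pool.Agent.P.MP_6327e0_co.U
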